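namespace Pool.Agent.H.MP_28a92f_nt

/-- lane-wise product of `Y` and `Y1` (bit-serial) -/
noncomputable def mulv (O Y Y1 : Nat) (n : Nat) : Nat :=
  Nat.rec 0 (fun b acc => Nat.add acc (Nat.land (Nat.mul (Nat.land Y (Nat.mul O (Nat.pow 2 b)))
    8388607) (Nat.mul Y1 (Nat.pow 2 b)))) n

noncomputable def quo (O T : Nat) : Nat :=
  Nat.mul (Nat.land (Nat.shiftRight (Nat.mul (Nat.land (Nat.shiftRight T 18) (Nat.mul O 67108863))
    87614660) 30) (Nat.mul O 8388607)) 3212647

noncomputable def d0 (O C r : Nat) : Nat :=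
  (fun U => Nat.land (Nat.shiftRight (Nat.lor (Nat.land (Nat.add (Nat.add r (Nat.mul O 5175961)) C)
    (Nat.add U (Nat.mul O 3212647))) U) 23) O) (Nat.add C (Nat.xor r (Nat.mul O 8388607)))

noncomputable def d1 (C D : Nat) : Nat := Nat.xor D (Nat.land (Nat.shiftRight C 21) D)

noncomputable def sel (r D C' : Nat) : Nat :=
  Nat.xor r (Nat.land (Nat.mul D 4194303) (Nat.xor r C'))

noncomputable def step3 (C r D : Nat) (k : Nat → Nat → Bool) : Bool :=
  (fun C' => k C' (sel r D C')) (Nat.add C (Nat.mul D 1024))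

noncomputable def step2 (O C T P : Nat) (k : Nat → Nat → Bool) : Bool :=
  (fun r => Bool.rec false (Bool.rec false (step3 C r (d1 C (d0 O C r)) k)
    (Nat.beq (Nat.land r (Nat.mul O 4194303)) r)) (Nat.ble P T)) (Nat.sub T P)

noncomputable def step (O C Y : Nat) (k : Nat → Nat → Bool) : Bool :=
  (fun T => step2 O C T (quo O T) k) (mulv O Y (Nat.add Y O) 22)

noncomputable def run (O : Nat) (k : Nat → Nat → Bool) (n : Nat) : Nat → Nat → Bool :=
  Nat.rec k (fun _ ih C Y => step O C Y ih) n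

noncomputable def ones : Nat := Nat.div (Nat.pow 2 57344) 72057594037927935

noncomputable def fin (C0 Y0 : Nat) (C Y : Nat) : Bool :=
  Bool.rec false (Nat.beq Y Y0) (Nat.beq C C0)

noncomputable def go (n C Y C1 Y1 : Nat) : Bool := run ones (fin C1 Y1) n C Y

end Pool.Agent.H.MP_28a92f_nt
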