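import Pool.Agent.H.MP_28a92f_nt.R2

namespace Pool.Agent.H.MP_28a92f_nt

theorem g30 : go 500 c30 y30 c31 y31 = true := by decide +kernel

theorem g31 : go 500 c31 y31 c32 y32 = true := by decide +kernel

theorem g32 : go 500 c32 y32 c33 y33 = true := by decide +kernel

theorem g33 : go 500 c33 y33 c34 y34 = true := by decide +kernel

theorem g34 : go 500 c34 y34 c35 y35 = true := by decide +kernel

theorem g35 : go 500 c35 y35 c36 y36 = true := by decide +kernel

theorem g36 : go 500 c36 y36 c37 y37 = true := by decide +kernel

theorem g37 : go 500 c37 y37 c38 y38 = true := by decide +kernel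

end Pool.Agent.H.MP_28a92f_nt
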