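import Pool.Agent.H.MP_28a92f_nt.Sound
import Pool.Agent.H.MP_28a92f_nt.R3

namespace Pool.Agent.H.MP_28a92f_nt

lemma s1 : ∀ j < 1024, ln c0 j = j + 1 := by decide +kernel

lemma s2 : c0 < 2 ^ 57344 := by decide +kernel

lemma s3 : y0 = c0 := by decide +kernel

lemma s4 : ∀ j < 1024, 1606324 ≤ ln c38 j := by decide +kernel

theorem all_reach (z : ZMod 3212647) : ∃ k, f^[k] z = 0 := by
  have h0 : Inv ones c0 y0 := by rw [s3]; exact inv_start c0 s1 s2
  have h1 := go_sound _ _ _ _ _ g0 h0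
  have h2 := go_sound _ _ _ _ _ g1 h1
  have h3 := go_sound _ _ _ _ _ g2 h2
  have h4 := go_sound _ _ _ _ _ g3 h3
  have h5 := go_sound _ _ _ _ _ g4 h4
  have h6 := go_sound _ _ _ _ _ g5 h5
  have h7 := go_sound _ _ _ _ _ g6 h6
  have h8 := go_sound _ _ _ _ _ g7 h7
  have h9 := go_sound _ _ _ _ _ g8 h8
  have h10 := go_sound _ _ _ _ _ g9 h9
  have h11 := go_sound _ _ _ _ _ g10 h10
  have h12 := go_sound _ _ _ _ _ g11 h11
  have h13 := go_sound _ _ _ _ _ g12 h12
  have h14 := go_sound _ _ _ _ _ g13 h13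
  have h15 := go_sound _ _ _ _ _ g14 h14
  have h16 := go_sound _ _ _ _ _ g15 h15
  have h17 := go_sound _ _ _ _ _ g16 h16
  have h18 := go_sound _ _ _ _ _ g17 h17
  have h19 := go_sound _ _ _ _ _ g18 h18
  have h20 := go_sound _ _ _ _ _ g19 h19
  have h21 := go_sound _ _ _ _ _ g20 h20
  have h22 := go_sound _ _ _ _ _ g21 h21
  have h23 := go_sound _ _ _ _ _ g22 h22
  have h24 := go_sound _ _ _ _ _ g23 h23
  have h25 := go_sound _ _ _ _ _ g24 h24
  have h26 := go_sound _ _ _ _ _ g25 h25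
  have h27 := go_sound _ _ _ _ _ g26 h26
  have h28 := go_sound _ _ _ _ _ g27 h27
  have h29 := go_sound _ _ _ _ _ g28 h28
  have h30 := go_sound _ _ _ _ _ g29 h29
  have h31 := go_sound _ _ _ _ _ g30 h30
  have h32 := go_sound _ _ _ _ _ g31 h31
  have h33 := go_sound _ _ _ _ _ g32 h32
  have h34 := go_sound _ _ _ _ _ g33 h33
  have h35 := go_sound _ _ _ _ _ g34 h34
  have h36 := go_sound _ _ _ _ _ g35 h35
  have h37 := go_sound _ _ _ _ _ g36 h36
  have h38 := go_sound _ _ _ _ _ g37 h37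
  exact reach (good_of_inv _ _ h38 s4) z

end Pool.Agent.H.MP_28a92f_nt
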