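import Pool.Agent.H.MP_28a92f_nt.Data

namespace Pool.Agent.H.MP_28a92f_nt

theorem g0 : go 500 c0 y0 c1 y1 = true := by decide +kernel

theorem g1 : go 500 c1 y1 c2 y2 = true := by decide +kernel

theorem g2 : go 500 c2 y2 c3 y3 = true := by decide +kernel

theorem g3 : go 500 c3 y3 c4 y4 = true := by decide +kernel

theorem g4 : go 500 c4 y4 c5 y5 = true := by decide +kernel

theorem g5 : go 500 c5 y5 c6 y6 = true := by decide +kernel

theorem g6 : go 500 c6 y6 c7 y7 = true := by decide +kernel

theorem g7 : go 500 c7 y7 c8 y8 = true := by decide +kernel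

theorem g8 : go 500 c8 y8 c9 y9 = true := by decide +kernel

theorem g9 : go 500 c9 y9 c10 y10 = true := by decide +kernel

end Pool.Agent.H.MP_28a92f_nt
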