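import Pool.Agent.H.MP_28a92f_nt.R0

namespace Pool.Agent.H.MP_28a92f_nt

theorem g10 : go 500 c10 y10 c11 y11 = true := by decide +kernel

theorem g11 : go 500 c11 y11 c12 y12 = true := by decide +kernel

theorem g12 : go 500 c12 y12 c13 y13 = true := by decide +kernel

theorem g13 : go 500 c13 y13 c14 y14 = true := by decide +kernel

theorem g14 : go 500 c14 y14 c15 y15 = true := by decide +kernel

theorem g15 : go 500 c15 y15 c16 y16 = true := by decide +kernel

theorem g16 : go 500 c16 y16 c17 y17 = true := by decide +kernel

theorem g17 : go 500 c17 y17 c18 y18 = true := by decide +kernel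

theorem g18 : go 500 c18 y18 c19 y19 = true := by decide +kernel

theorem g19 : go 500 c19 y19 c20 y20 = true := by decide +kernel

end Pool.Agent.H.MP_28a92f_nt
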