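import Pool.Agent.H.MP_28a92f_nt.R1

namespace Pool.Agent.H.MP_28a92f_nt

theorem g20 : go 500 c20 y20 c21 y21 = true := by decide +kernel

theorem g21 : go 500 c21 y21 c22 y22 = true := by decide +kernel

theorem g22 : go 500 c22 y22 c23 y23 = true := by decide +kernel

theorem g23 : go 500 c23 y23 c24 y24 = true := by decide +kernel

theorem g24 : go 500 c24 y24 c25 y25 = true := by decide +kernel

theorem g25 : go 500 c25 y25 c26 y26 = true := by decide +kernel

theorem g26 : go 500 c26 y26 c27 y27 = true := by decide +kernel

theorem g27 : go 500 c27 y27 c28 y28 = true := by decide +kernel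

theorem g28 : go 500 c28 y28 c29 y29 = true := by decide +kernel

theorem g29 : go 500 c29 y29 c30 y30 = true := by decide +kernel

end Pool.Agent.H.MP_28a92f_nt
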