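import Mathlib
import Pool.Agent.H.MP_28a92f_nt.Defs

namespace Pool.Agent.H.MP_28a92f_nt

def ln (A j : ℕ) : ℕ := A / 2 ^ (56 * j) % 2 ^ 56

lemma ln_zero (A : ℕ) : ln A 0 = A % 2 ^ 56 := by simp [ln]

lemma ln_succ (A j : ℕ) : ln A (j + 1) = ln (A / 2 ^ 56) j := by
  rw [ln, ln, Nat.div_div_eq_div_mul, ← pow_add]; congr 3; ring

lemma ln_add (j : ℕ) : ∀ A B : ℕ, (∀ i, ln A i + ln B i < 2 ^ 56) →
    ln (A + B) j = ln A j + ln B j := by
  induction j with
  | zero => intro A B h; have := h 0; simp only [ln_zero] at *; omega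
  | succ j ih =>
    intro A B h
    have h0 := h 0
    simp only [ln_zero] at h0
    rw [ln_succ, ln_succ, ln_succ, show (A + B) / 2 ^ 56 = A / 2 ^ 56 + B / 2 ^ 56 by omega]
    exact ih _ _ fun i => by simpa only [ln_succ] using h (i + 1)

lemma ln_mul (A k : ℕ) : (∀ i, ln A i * k < 2 ^ 56) → ∀ j, ln (A * k) j = ln A j * k := by
  induction k with
  | zero => intro _ j; simp [ln]
  | succ k ih =>
    intro h j
    have h1 : ∀ i, ln A i * k < 2 ^ 56 := fun i =>
      lt_of_le_of_lt (Nat.mul_le_mul_left _ (Nat.le_succ k)) (h i)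
    rw [Nat.mul_succ, ln_add j _ _ fun i => by rw [ih h1, ← Nat.mul_succ]; exact h i, ih h1,
      Nat.mul_succ]

lemma ln_and (A B j : ℕ) : ln (A &&& B) j = ln A j &&& ln B j := by
  rw [ln, Nat.and_div_two_pow, Nat.and_mod_two_pow]; rfl

lemma ln_or (A B j : ℕ) : ln (A ||| B) j = ln A j ||| ln B j := by
  rw [ln, Nat.or_div_two_pow, Nat.or_mod_two_pow]; rfl

lemma ln_xor (A B j : ℕ) : ln (A ^^^ B) j = ln A j ^^^ ln B j := by
  rw [ln, Nat.xor_div_two_pow, Nat.xor_mod_two_pow]; rfl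

lemma ln_shr (A B s j : ℕ) (hs : s < 56) (h : ln B j ≤ 1) :
    ln ((A >>> s) &&& B) j = if (ln A j).testBit s then ln B j else 0 := by
  rw [ln_and]
  have e : (ln (A >>> s) j).testBit 0 = (ln A j).testBit s := by
    simp only [ln, Nat.testBit_mod_two_pow, Nat.testBit_div_two_pow, Nat.testBit_shiftRight]
    simp [hs]
  rcases Nat.le_one_iff_eq_zero_or_eq_one.1 h with h | h
  · simp [h]
  · rw [h, Nat.and_one_is_mod, ← e, Nat.testBit_zero]
    rcases Nat.mod_two_eq_zero_or_one (ln (A >>> s) j) with h | h <;> simp [h]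

lemma bit_mul (y y1 b : ℕ) (h : y1 < 2 ^ 23) :
    ((y &&& 2 ^ b) * 8388607) &&& (y1 * 2 ^ b) = 2 ^ b * (y / 2 ^ b % 2) * y1 := by
  rw [Nat.and_two_pow, ← Nat.toNat_testBit]
  cases y.testBit b
  · simp
  · simp only [Bool.toNat_true, one_mul, mul_one]
    rw [mul_comm (2 ^ b), ← Nat.shiftLeft_eq, ← Nat.shiftLeft_eq, ← Nat.shiftLeft_and_distrib,
      Nat.and_comm, show 8388607 = 2 ^ 23 - 1 by norm_num,
      Nat.and_two_pow_sub_one_of_lt_two_pow h, Nat.shiftLeft_eq, mul_comm]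

section
variable (O : ℕ) (hO : ∀ j, ln O j ≤ 1)
include hO

lemma ln_O (k : ℕ) (hk : k < 2 ^ 56) (j : ℕ) : ln (O * k) j = ln O j * k :=
  ln_mul O k (fun i => lt_of_le_of_lt (by simpa using Nat.mul_le_mul_right k (hO i)) hk) j

lemma ln_mulv (Y Y1 : ℕ) (h1 : ∀ j, ln Y1 j ≤ 2 ^ 22) (n : ℕ) (hn : n ≤ 22) (j : ℕ) :
    ln (mulv O Y Y1 n) j = ln O j * (ln Y j % 2 ^ n * ln Y1 j) := by
  induction n generalizing j with
  | zero => simp [mulv, ln, Nat.mod_one]
  | succ n ih =>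
    have e : mulv O Y Y1 (n + 1) = mulv O Y Y1 n +
      (((Y &&& (O * 2 ^ n)) * 8388607) &&& (Y1 * 2 ^ n)) := rfl
    have p1 : 2 ^ n ≤ 2 ^ 21 := Nat.pow_le_pow_right (by norm_num) (by omega)
    have t : ∀ i, ln (((Y &&& (O * 2 ^ n)) * 8388607) &&& (Y1 * 2 ^ n)) i =
        ln O i * (2 ^ n * (ln Y i / 2 ^ n % 2) * ln Y1 i) := by
      intro i
      rw [ln_and, ln_mul Y1 _ (fun i => by have := h1 i; nlinarith), ln_mul _ _ (fun i => by
        rw [ln_and, ln_O O hO _ (by omega)]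
        have a1 : ln Y i &&& ln O i * 2 ^ n ≤ ln O i * 2 ^ n := Nat.and_le_right
        have a2 := Nat.mul_le_mul (hO i) p1
        omega), ln_and, ln_O O hO _ (by omega)]
      rcases Nat.le_one_iff_eq_zero_or_eq_one.1 (hO i) with h | h
      · simp [h]
      · rw [h, one_mul, one_mul, bit_mul _ _ _ (by have := h1 i; omega)]
    have s : ∀ i, ln (mulv O Y Y1 n) i +
        ln (((Y &&& (O * 2 ^ n)) * 8388607) &&& (Y1 * 2 ^ n)) i =
        ln O i * (ln Y i % 2 ^ (n + 1) * ln Y1 i) := by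
      intro i; rw [t, ih (by omega), Nat.mod_pow_succ]; ring
    rw [e, ln_add j _ _ fun i => ?_, s]
    rw [s]
    have a1 : ln Y i % 2 ^ (n + 1) < 2 ^ (n + 1) := Nat.mod_lt _ (by positivity)
    have a2 : ln Y i % 2 ^ (n + 1) ≤ 2 ^ 22 := by rw [pow_succ] at a1; omega
    have a3 := Nat.mul_le_mul (hO i) (Nat.mul_le_mul a2 (h1 i))
    omega

lemma ln_quo (T : ℕ) : ∃ q : ℕ → ℕ, ∀ j, q j < 2 ^ 23 ∧ ln (quo O T) j = q j * 3212647 := by
  obtain ⟨X, hX⟩ : ∃ X, quo O T = (X &&& (O * 8388607)) * 3212647 := ⟨_, rfl⟩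
  have b : ∀ j, ln (X &&& (O * 8388607)) j < 2 ^ 23 := by
    intro j
    rw [ln_and, ln_O O hO _ (by norm_num)]
    have a1 : ln X j &&& ln O j * 8388607 ≤ ln O j * 8388607 := Nat.and_le_right
    have := hO j
    omega
  refine ⟨fun j => ln (X &&& (O * 8388607)) j, fun j => ⟨b j, ?_⟩⟩
  rw [hX, ln_mul _ _ fun i => by have := b i; omega]

omit hO in
lemma tb (x : ℕ) (h : x < 2 ^ 24) (h1 : x.testBit 23 = true) : 2 ^ 23 ≤ x := by
  rw [Nat.testBit_eq_decide_div_mod_eq] at h1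
  simp only [decide_eq_true_eq] at h1
  omega

lemma ln_d0 (C r : ℕ) (hC : ∀ j, ln C j < 2 ^ 22) (hr : ∀ j, ln r j < 2 ^ 22) (j : ℕ) :
    ln (d0 O C r) j ≤ 1 ∧ (ln (d0 O C r) j = 1 → ln O j = 1 ∧ (ln r j < ln C j ∨
      (3212647 ≤ ln r j + ln C j ∧ ln r j < 3212647 + ln C j))) := by
  have e : d0 O C r = ((((r + O * 5175961 + C) &&& (C + (r ^^^ (O * 8388607)) + O * 3212647)) |||
    (C + (r ^^^ (O * 8388607)))) >>> 23) &&& O := rfl
  rw [e, ln_shr _ _ _ _ (by norm_num) (hO j)]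
  refine ⟨by have := hO j; split_ifs <;> omega, fun h => ?_⟩
  split_ifs at h with hb
  refine ⟨h, ?_⟩
  have x1 : ∀ i, ln (r ^^^ (O * 8388607)) i < 2 ^ 23 := by
    intro i
    rw [ln_xor, ln_O O hO _ (by norm_num)]
    exact Nat.xor_lt_two_pow (by have := hr i; omega) (by have := hO i; omega)
  have x2 : ln (r ^^^ (O * 8388607)) j = 2 ^ 23 - (ln r j + 1) := by
    rw [ln_xor, ln_O O hO _ (by norm_num), h, one_mul, show 8388607 = 2 ^ 23 - 1 by norm_num]
    apply Nat.eq_of_testBit_eq; intro i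
    have hl : ln r j < 2 ^ 23 := by have := hr j; omega
    rw [Nat.testBit_two_pow_sub_succ hl, Nat.testBit_xor, Nat.testBit_two_pow_sub_one]
    by_cases hi : i < 23
    · simp [hi]
    · simp [hi, Nat.testBit_lt_two_pow (lt_of_lt_of_le hl
        (Nat.pow_le_pow_right (by norm_num) (not_lt.1 hi)))]
  have u : ∀ i, ln (C + (r ^^^ (O * 8388607))) i = ln C i + ln (r ^^^ (O * 8388607)) i :=
    fun i => ln_add i _ _ fun i => by have := x1 i; have := hC i; omega
  have g : ∀ i, ln (r + O * 5175961) i = ln r i + ln O i * 5175961 := fun i => by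
    rw [ln_add i _ _ fun i => by
      rw [ln_O O hO _ (by norm_num)]; have := hr i; have := hO i; omega, ln_O O hO _ (by norm_num)]
  rw [ln_or, ln_and, ln_add j _ C fun i => by
      rw [g]; have := hr i; have := hO i; have := hC i; omega,
    ln_add j _ (O * 3212647) fun i => by
      rw [u, ln_O O hO _ (by norm_num)]; have := x1 i; have := hO i; have := hC i; omega,
    g, u, x2, ln_O O hO _ (by norm_num), h, Nat.testBit_or, Nat.testBit_and] at hb
  have := hr j; have := hC j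
  simp only [Bool.or_eq_true, Bool.and_eq_true] at hb
  rcases hb with ⟨h1, h2⟩ | h1
  · have := tb _ (by omega) h1
    have := tb _ (by omega) h2
    omega
  · have := tb _ (by omega) h1
    omega

end

lemma ln_d1 (C D j : ℕ) (hC : ln C j < 2 ^ 22) (hD : ln D j ≤ 1) :
    ln (d1 C D) j ≤ 1 ∧ (ln (d1 C D) j = 1 → ln D j = 1 ∧ ln C j < 2 ^ 21) := by
  have e : d1 C D = D ^^^ ((C >>> 21) &&& D) := rfl
  rw [e, ln_xor, ln_shr _ _ _ _ (by norm_num) hD]
  split_ifs with h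
  · simp
  · rw [Nat.xor_zero]
    refine ⟨hD, fun h1 => ⟨h1, ?_⟩⟩
    rw [Nat.testBit_eq_decide_div_mod_eq] at h
    simp only [decide_eq_true_eq] at h
    omega

lemma ln_sel (r D C : ℕ) (hD : ∀ j, ln D j ≤ 1) (j : ℕ) (hr : ln r j < 2 ^ 22)
    (hC : ln C j < 2 ^ 22) : ln (sel r D C) j = if ln D j = 1 then ln C j else ln r j := by
  have e : sel r D C = r ^^^ ((D * 4194303) &&& (r ^^^ C)) := rfl
  rw [e, ln_xor, ln_and, ln_xor, ln_mul _ _ fun i => by have := hD i; omega]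
  rcases Nat.le_one_iff_eq_zero_or_eq_one.1 (hD j) with h | h
  · simp [h]
  · rw [h, one_mul, if_pos rfl, Nat.and_comm, show 4194303 = 2 ^ 22 - 1 by norm_num,
      Nat.and_two_pow_sub_one_of_lt_two_pow (Nat.xor_lt_two_pow hr hC), ← Nat.xor_assoc,
      Nat.xor_self, Nat.zero_xor]

def f (z : ZMod 3212647) : ZMod 3212647 := z * (z + 1)

def Good (c : ℕ) : Prop := ∃ k r : ℕ, (r : ZMod 3212647) = f^[k + 1] c ∧
  (r < c ∨ (3212647 ≤ r + c ∧ r < 3212647 + c))

def Inv (O C Y : ℕ) : Prop := ∀ j, ln C j < 2 ^ 21 + 1024 ∧ ln Y j < 2 ^ 22 ∧ (ln O j = 1 →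
  ∃ n, ln C j = j + 1 + 1024 * n ∧ (∀ m < n, Good (j + 1 + 1024 * m)) ∧
    ∃ k, (ln Y j : ZMod 3212647) = f^[k] (ln C j))

lemma step2_true (O C T P : ℕ) (k : ℕ → ℕ → Bool) (h : step2 O C T P k = true) :
    P ≤ T ∧ (T - P) &&& (O * 4194303) = T - P ∧
      step3 C (T - P) (d1 C (d0 O C (T - P))) k = true := by
  have e : step2 O C T P k = Bool.rec false (Bool.rec false
      (step3 C (Nat.sub T P) (d1 C (d0 O C (Nat.sub T P))) k)
      (Nat.beq (Nat.land (Nat.sub T P) (Nat.mul O 4194303)) (Nat.sub T P))) (Nat.ble P T) := rfl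
  rw [e] at h
  generalize h1 : Nat.ble P T = b1 at h
  generalize h2 : Nat.beq (Nat.land (Nat.sub T P) (Nat.mul O 4194303)) (Nat.sub T P) = b2 at h
  cases b1
  · exact absurd h (by simp)
  cases b2
  · exact absurd h (by simp)
  exact ⟨Nat.le_of_ble_eq_true h1, Nat.eq_of_beq_eq_true h2, h⟩

lemma step3_eq (C r D : ℕ) (k : ℕ → ℕ → Bool) :
    step3 C r D k = k (C + D * 1024) (sel r D (C + D * 1024)) := rfl

lemma step_eq (O C Y : ℕ) (k : ℕ → ℕ → Bool) :
    step O C Y k = step2 O C (mulv O Y (Y + O) 22) (quo O (mulv O Y (Y + O) 22)) k := by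
  unfold step; rfl

lemma step_sound (O : ℕ) (hO : ∀ j, ln O j ≤ 1) (C Y : ℕ) (k : ℕ → ℕ → Bool)
    (h : step O C Y k = true) (hI : Inv O C Y) : ∃ C' Y', k C' Y' = true ∧ Inv O C' Y' := by
  rw [step_eq] at h
  obtain ⟨T, hT⟩ : ∃ T, T = mulv O Y (Y + O) 22 := ⟨_, rfl⟩
  rw [← hT] at h
  obtain ⟨P, hP⟩ : ∃ P, P = quo O T := ⟨_, rfl⟩
  rw [← hP] at h
  obtain ⟨h1', h2', h⟩ := step2_true O C T P k h
  obtain ⟨r, hr⟩ : ∃ r, r = T - P := ⟨_, rfl⟩
  rw [← hr] at h h2'
  obtain ⟨D, hD⟩ : ∃ D, D = d1 C (d0 O C r) := ⟨_, rfl⟩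
  rw [← hD, step3_eq] at h
  refine ⟨_, _, h, ?_⟩
  have br : ∀ j, ln r j < 2 ^ 22 := by
    intro j
    rw [← h2', ln_and, ln_O O hO _ (by norm_num)]
    have a1 : ln r j &&& ln O j * 4194303 ≤ ln O j * 4194303 := Nat.and_le_right
    have := hO j
    omega
  have bC : ∀ j, ln C j < 2 ^ 22 := fun j => by have := (hI j).1; omega
  have y1 : ∀ j, ln (Y + O) j = ln Y j + ln O j := fun j =>
    ln_add j _ _ fun i => by have := (hI i).2.1; have := hO i; omega
  obtain ⟨q, hq⟩ := ln_quo O hO T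
  rw [← hP] at hq
  have hTr : ∀ j, ln T j = ln r j + q j * 3212647 := fun j => by
    rw [show T = r + P by omega, ln_add j _ _ fun i => by
      have := br i; have := hq i; omega, (hq j).2]
  have dd := fun j => ln_d0 O hO C r bC br j
  have d1' := fun j => ln_d1 C (d0 O C r) j (bC j) (dd j).1
  rw [← hD] at d1'
  have c' : ∀ j, ln (C + D * 1024) j = ln C j + ln D j * 1024 := fun j => by
    have m := ln_mul D 1024 fun i => by have := (d1' i).1; omega
    rw [ln_add j _ _ fun i => by rw [m]; have := (d1' i).1; have := bC i; omega, m]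
  intro j
  obtain ⟨i1, i2, i3⟩ := hI j
  obtain ⟨a1, a2⟩ := d1' j
  have bc : ln (C + D * 1024) j < 2 ^ 21 + 1024 := by rw [c']; omega
  rw [ln_sel _ _ _ (fun j => (d1' j).1) j (br j) (by omega)]
  refine ⟨bc, by have := br j; split_ifs <;> omega, fun ho => ?_⟩
  obtain ⟨n, n1, n2, k0, n3⟩ := i3 ho
  have hf : (ln r j : ZMod 3212647) = f^[k0 + 1] (ln C j) := by
    have t := ln_mulv O hO Y (Y + O) (fun j => by
      rw [y1]; have := (hI j).2.1; have := hO j; omega) 22 le_rfl j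
    rw [← hT, hTr, ho, one_mul, Nat.mod_eq_of_lt i2, y1, ho] at t
    have t2 := congrArg (Nat.cast : ℕ → ZMod 3212647) t
    have z : ((3212647 : ℕ) : ZMod 3212647) = 0 := ZMod.natCast_self _
    rw [Nat.cast_add, Nat.cast_mul, z, mul_zero, add_zero] at t2
    rw [Function.iterate_succ_apply', ← n3, t2, f]; push_cast; rfl
  split_ifs with hd
  · refine ⟨n + 1, by rw [c']; omega, fun m hm => ?_, 0, rfl⟩
    rcases Nat.lt_succ_iff_lt_or_eq.1 hm with hm | rfl
    · exact n2 m hm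
    · rw [← n1]; exact ⟨k0, _, hf, ((dd j).2 (a2 hd).1).2⟩
  · have : ln D j = 0 := by omega
    rw [c', this, zero_mul, add_zero]
    exact ⟨n, n1, n2, k0 + 1, hf⟩

lemma run_sound (O : ℕ) (hO : ∀ j, ln O j ≤ 1) (k : ℕ → ℕ → Bool) (n : ℕ) : ∀ C Y,
    run O k n C Y = true → Inv O C Y → ∃ C' Y', k C' Y' = true ∧ Inv O C' Y' := by
  induction n with
  | zero => intro C Y h hI; exact ⟨C, Y, h, hI⟩
  | succ n ih =>
    intro C Y h hI
    obtain ⟨C', Y', h1, h2⟩ := step_sound O hO C Y (run O k n) h hI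
    exact ih _ _ h1 h2

lemma ln_big (A j : ℕ) (h : A < 2 ^ 57344) (hj : 1024 ≤ j) : ln A j = 0 := by
  have h1 : 57344 ≤ 56 * j := by clear h; omega
  rw [ln, Nat.div_eq_of_lt (lt_of_lt_of_le h (Nat.pow_le_pow_right (by norm_num) h1)),
    Nat.zero_mod]

lemma ones_small : ∀ j < 1024, ln ones j = 1 := by decide +kernel

lemma ones_lt : ones < 2 ^ 57344 := by decide +kernel

lemma ones_le (j : ℕ) : ln ones j ≤ 1 := by
  rcases lt_or_ge j 1024 with h | h
  · rw [ones_small j h]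
  · rw [ln_big _ _ ones_lt h]; omega

lemma go_sound (n C Y C1 Y1 : ℕ) (h : go n C Y C1 Y1 = true) (hI : Inv ones C Y) :
    Inv ones C1 Y1 := by
  obtain ⟨C', Y', h1, h2⟩ := run_sound ones ones_le _ n C Y h hI
  cases h3 : Nat.beq C' C1
  · simp [fin, h3] at h1
  simp only [fin, h3] at h1
  rwa [← Nat.eq_of_beq_eq_true h3, ← Nat.eq_of_beq_eq_true h1]

lemma inv_start (C : ℕ) (h1 : ∀ j < 1024, ln C j = j + 1) (h2 : C < 2 ^ 57344) :
    Inv ones C C := by
  intro j
  rcases lt_or_ge j 1024 with h | h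
  · rw [h1 j h]
    exact ⟨by omega, by omega, fun _ => ⟨0, by simp, by simp, 0, rfl⟩⟩
  · rw [ln_big _ _ h2 h, ln_big _ _ ones_lt h]
    exact ⟨by omega, by omega, fun h => by omega⟩

lemma good_of_inv (C Y : ℕ) (hI : Inv ones C Y) (h : ∀ j < 1024, 1606324 ≤ ln C j) (c : ℕ)
    (h1 : 1 ≤ c) (h2 : c < 1606324) : Good c := by
  have hj : (c - 1) % 1024 < 1024 := Nat.mod_lt _ (by norm_num)
  obtain ⟨n, n1, n2, -⟩ := (hI _).2.2 (ones_small _ hj)
  have := h _ hj
  have := n2 ((c - 1) / 1024) (by omega)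
  rwa [show (c - 1) % 1024 + 1 + 1024 * ((c - 1) / 1024) = c by omega] at this

lemma reach (hG : ∀ c, 1 ≤ c → c < 1606324 → Good c) (z : ZMod 3212647) : ∃ k, f^[k] z = 0 := by
  have z0 : ((3212647 : ℕ) : ZMod 3212647) = 0 := ZMod.natCast_self _
  have key : ∀ c : ℕ, c < 1606324 → ∃ k, f^[k + 1] (c : ZMod 3212647) = 0 := by
    intro c
    induction c using Nat.strong_induction_on with
    | _ c ih =>
      intro hc
      rcases Nat.eq_zero_or_pos c with rfl | h0
      · exact ⟨0, by simp [f]⟩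
      obtain ⟨k, r, h1, h2⟩ := hG c h0 hc
      have : ∃ c' < c, f (c' : ZMod 3212647) = f r := by
        rcases h2 with h2 | ⟨h2, h3⟩
        · exact ⟨r, h2, rfl⟩
        · rcases lt_or_ge r 3212647 with h4 | h4
          · refine ⟨3212646 - r, by omega, ?_⟩
            have : ((3212646 - r : ℕ) : ZMod 3212647) = -1 - r := by
              have e : (3212646 - r) + r + 1 = 3212647 := by omega
              have := congrArg (Nat.cast : ℕ → ZMod 3212647) e
              rw [z0] at this; push_cast at this; linear_combination this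
            rw [this, f, f]; ring
          · refine ⟨r - 3212647, by omega, ?_⟩
            rw [Nat.cast_sub h4, z0, sub_zero]
      obtain ⟨c', l1, l2⟩ := this
      obtain ⟨k', hk'⟩ := ih c' l1 (by omega)
      refine ⟨k' + 1 + k, ?_⟩
      rw [add_assoc (k' + 1), Function.iterate_add_apply, ← h1, Function.iterate_succ_apply, ← l2]
      exact hk'
  rcases lt_or_ge z.val 1606324 with h | h
  · obtain ⟨k, hk⟩ := key _ h
    exact ⟨k + 1, by simpa using hk⟩
  · have hz := z.val_lt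
    obtain ⟨k, hk⟩ := key (3212646 - z.val) (by omega)
    refine ⟨k + 1, ?_⟩
    have : ((3212646 - z.val : ℕ) : ZMod 3212647) = -1 - z := by
      have e : (3212646 - z.val) + z.val + 1 = 3212647 := by omega
      have := congrArg (Nat.cast : ℕ → ZMod 3212647) e
      rw [z0] at this; push_cast at this
      rw [ZMod.natCast_zmod_val] at this; linear_combination this
    rw [Function.iterate_succ_apply] at hk ⊢
    rw [← hk, this, show f (-1 - z) = f z by rw [f, f]; ring]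

end Pool.Agent.H.MP_28a92f_nt
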